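import Pool.Agent.X189.BS.Stm
import Pool.Agent.X189.BS.E2c
import Pool.Agent.X153.BS.A
import Pool.Agent.X271.BS.B
import Pool.Agent.X269.BS.G
import Pool.Agent.X72.BS.K
import Pool.Agent.X191.BS.D
import Pool.Agent.X263.BS.E1
import Pool.Agent.X56.BS.F

/-!
# MP_4f027a_co, Q1: no coincidences at any fixed `q`

For every positive integer `q` and all `n`: if two reduced words of the same permutation have the
same Bott-Samelson distribution at this single value `q`, they lie in the same commutation class.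
-/

namespace Pool.Agent.Results.MP_4f027a_co.FixedQ

open Equiv Pool.Agent.X189.BS

/-- The distribution `P_{R,q}(w) = q^ℓ(w) c_{R,w}(q) / (1+q)^L`. -/
noncomputable def prob {n : ℕ} (q : ℕ) (R : List (Fin n)) (w : Perm (Fin (n + 1))) : ℚ :=
  (q : ℚ) ^ inv w * (coef (q : ℤ) R w : ℚ) / (1 + (q : ℚ)) ^ R.length

theorem lt_of_val {n : ℕ} {R : List (Fin n)} (hA : Asc 1 R) {e : Fin (n + 1) × Fin (n + 1)}
    (he : e ∈ labs 1 R) : e.1 < e.2 := by
  obtain ⟨x, y⟩ := e
  exact (((Pool.Agent.X269.BS.t_G n R hA).1 x y).1 he).1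

theorem eqv_res {n : ℕ} {q : ℤ} (hq : 0 < q) {R₁ R₂ : List (Fin n)} (h1 : Asc 1 R₁)
    (h2 : Asc 1 R₂) (hmem : ∀ e, e ∈ labs 1 R₁ ↔ e ∈ labs 1 R₂)
    (hC : ∀ g, C q (labs 1 R₁) g = C q (labs 1 R₂) g) :
    ∀ (k : ℕ) (a c : Fin (n + 1)), c.val ≤ a.val + k →
      Eqv (res a c (labs 1 R₁)) (res a c (labs 1 R₂)) := by
  intro k
  have G1 := Pool.Agent.X269.BS.t_G n R₁ h1
  have G2 := Pool.Agent.X269.BS.t_G n R₂ h2
  have triv : ∀ a c : Fin (n + 1), ¬ a < c →
      Eqv (res a c (labs 1 R₁)) (res a c (labs 1 R₂)) := by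
    intro a c hac
    have key : ∀ (R : List (Fin n)), Asc 1 R → res a c (labs 1 R) = [] := by
      intro R hR
      unfold res
      rw [List.filter_eq_nil_iff]
      intro e he hcond
      have h3 := lt_of_val hR he
      simp only [decide_eq_true_eq] at hcond
      exact hac (lt_of_le_of_lt hcond.1 (lt_of_lt_of_le h3 hcond.2))
    rw [key R₁ h1, key R₂ h2]
    intro x
    rfl
  induction k with
  | zero =>
    intro a c hk
    exact triv a c (by intro h; have : a.val < c.val := h; omega)
  | succ k ih =>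
    intro a c hk
    by_cases hac : a < c
    · have hac' : a.val < c.val := hac
      have memres : ∀ e, e ∈ res a c (labs 1 R₁) ↔ e ∈ res a c (labs 1 R₂) := by
        intro e
        simp only [res, List.mem_filter, hmem e]
      refine Pool.Agent.X189.BS.t_E2 Pool.Agent.X263.BS.t_E1 n q a c _ _ hq hac (G1.2 a c)
        (G2.2 a c) memres ?_ ?_ ?_
      · have hb : a.val + 1 < n + 1 := by have := c.isLt; omega
        have h3 := ih ⟨a.val + 1, hb⟩ c (by simp; omega)
        have h4 : ∀ L : List (Fin (n + 1) × Fin (n + 1)),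
            (res a c L).filter (fun e => e.1 ≠ a) = res ⟨a.val + 1, hb⟩ c L := by
          intro L
          unfold res
          rw [List.filter_filter]
          apply List.filter_congr
          intro e _
          have : (e.1 ≠ a ∧ a ≤ e.1 ∧ e.2 ≤ c) ↔
              ((⟨a.val + 1, hb⟩ : Fin (n + 1)) ≤ e.1 ∧ e.2 ≤ c) := by
            simp only [ne_eq, Fin.ext_iff, Fin.le_def]
            omega
          simp only [← Bool.decide_and]
          exact decide_eq_decide.2 this
        rw [h4, h4]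
        exact h3
      · have hb : c.val - 1 < n + 1 := by have := c.isLt; omega
        have h3 := ih a ⟨c.val - 1, hb⟩ (by simp; omega)
        have h4 : ∀ L : List (Fin (n + 1) × Fin (n + 1)),
            (res a c L).filter (fun e => e.2 ≠ c) = res a ⟨c.val - 1, hb⟩ L := by
          intro L
          unfold res
          rw [List.filter_filter]
          apply List.filter_congr
          intro e _
          have : (e.2 ≠ c ∧ a ≤ e.1 ∧ e.2 ≤ c) ↔
              (a ≤ e.1 ∧ e.2 ≤ (⟨c.val - 1, hb⟩ : Fin (n + 1))) := by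
            simp only [ne_eq, Fin.ext_iff, Fin.le_def]
            omega
          simp only [← Bool.decide_and]
          exact decide_eq_decide.2 this
        rw [h4, h4]
        exact h3
      · refine Pool.Agent.X191.BS.t_D n q a c _ _ (G1.2 a c) (G2.2 a c) memres ?_ c
        intro g hg
        rw [← Pool.Agent.X72.BSK.t_K n q (labs 1 R₁) a c G1.2 (fun e he => lt_of_val h1 he) g hg,
          ← Pool.Agent.X72.BSK.t_K n q (labs 1 R₂) a c G2.2 (fun e he => lt_of_val h2 he) g hg]
        exact hC g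
    · exact triv a c hac

/-- Equality of the coefficients at one `q > 0` forces the same commutation class. -/
theorem main {n : ℕ} {q : ℤ} (hq : 0 < q) {R₁ R₂ : List (Fin n)} (r1 : Reduced R₁)
    (r2 : Reduced R₂) (hw : wprod R₁ = wprod R₂) (hc : ∀ w, coef q R₁ w = coef q R₂ w) :
    SameClass R₁ R₂ := by
  have h1 := Pool.Agent.X153.BS.t_A n R₁ r1
  have h2 := Pool.Agent.X153.BS.t_A n R₂ r2
  have G1 := Pool.Agent.X269.BS.t_G n R₁ h1
  have G2 := Pool.Agent.X269.BS.t_G n R₂ h2
  have hmem : ∀ e, e ∈ labs 1 R₁ ↔ e ∈ labs 1 R₂ := by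
    rintro ⟨x, y⟩
    rw [G1.1, G2.1, hw]
  have hC : ∀ g, C q (labs 1 R₁) g = C q (labs 1 R₂) g := by
    intro g
    rw [← Pool.Agent.X271.BS.t_B n q R₁ g, ← Pool.Agent.X271.BS.t_B n q R₂ g, hw, hc]
  have h3 := eqv_res hq h1 h2 hmem hC n 0 (Fin.last n) (by simp)
  have h4 : ∀ L : List (Fin (n + 1) × Fin (n + 1)), res 0 (Fin.last n) L = L := by
    intro L
    unfold res
    rw [List.filter_eq_self]
    intro e _
    simp [Fin.le_last]
  rw [h4, h4] at h3
  exact Pool.Agent.X56.BS.t_F n R₁ R₂ h1 h2 h3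

/-- Q1: there are no positive integer `q`, `n` and reduced words `R₁, R₂` of the same permutation
(of `n + 1` points), in different commutation classes, with the same distribution at `q`. -/
theorem result : ¬ ∃ (q n : ℕ) (R₁ R₂ : List (Fin n)), 0 < q ∧ Reduced R₁ ∧ Reduced R₂ ∧
    wprod R₁ = wprod R₂ ∧ ¬ SameClass R₁ R₂ ∧ ∀ w, prob q R₁ w = prob q R₂ w := by
  rintro ⟨q, n, R₁, R₂, hq, r1, r2, hw, hns, hp⟩
  apply hns
  refine main (q := (q : ℤ)) (by exact_mod_cast hq) r1 r2 hw ?_
  intro w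
  have hlen : R₁.length = R₂.length := by
    rw [← r1, ← r2, hw]
  have h3 := hp w
  unfold prob at h3
  rw [hlen] at h3
  have hq' : (q : ℚ) ≠ 0 := by
    have : q ≠ 0 := hq.ne'
    exact_mod_cast this
  have h4 : (1 + (q : ℚ)) ^ R₂.length ≠ 0 := by positivity
  have h5 : (q : ℚ) ^ inv w ≠ 0 := pow_ne_zero _ hq'
  have h6 := (div_left_inj' h4).1 h3
  have h7 := mul_left_cancel₀ h5 h6
  exact_mod_cast h7

end Pool.Agent.Results.MP_4f027a_co.FixedQ
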